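import Pool.Agent.H8.AV3.Stmts6

/-!
# Module LNG: a smooth cubic over a large finite field has a good point
-/

set_option autoImplicit false

namespace Pool.Agent.H3.AV3C.LNG

open Polynomial Matrix Pool.AVR Pool.AV3

section

variable {k : Type} [Field k]

/-- The class of `a + b X` modulo `X²`. -/
noncomputable def lf (a b : k) : AdjoinRoot ((X : k[X]) ^ 2) :=
  AdjoinRoot.mk _ (C a + C b * X)

lemma lf_inj {a b a' b' : k} (h : lf a b = lf a' b') : a = a' ∧ b = b' := by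
  unfold lf at h
  rw [← sub_eq_zero, ← map_sub, AdjoinRoot.mk_eq_zero, X_pow_dvd_iff] at h
  have h0 := h 0 (by norm_num)
  have h1 := h 1 (by norm_num)
  simp [coeff_C] at h0 h1
  exact ⟨sub_eq_zero.mp h0, sub_eq_zero.mp h1⟩

lemma lft_lf (a b : k) :
    AdjoinRoot.mk (X : k[X]) (AVS.lft (lf a b)) = AdjoinRoot.of (X : k[X]) a := by
  have h1 : AdjoinRoot.mk ((X : k[X]) ^ 2) (AVS.lft (lf a b)) = lf a b :=
    Function.surjInv_eq AdjoinRoot.mk_surjective _
  unfold lf at h1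
  rw [← sub_eq_zero, ← map_sub, AdjoinRoot.mk_eq_zero, X_pow_dvd_iff] at h1
  have h0 := h1 0 (by norm_num)
  rw [← AdjoinRoot.mk_C, ← sub_eq_zero, ← map_sub, AdjoinRoot.mk_eq_zero, X_dvd_iff]
  simp only [coeff_sub, coeff_add, coeff_C_zero, coeff_mul_X_zero, add_zero] at h0 ⊢
  exact h0

lemma of_surj (x : AdjoinRoot (X : k[X])) : ∃ a : k, AdjoinRoot.of (X : k[X]) a = x := by
  obtain ⟨p, rfl⟩ := AdjoinRoot.mk_surjective x
  refine ⟨p.coeff 0, ?_⟩
  rw [← AdjoinRoot.mk_C, ← sub_eq_zero, ← map_sub, AdjoinRoot.mk_eq_zero, X_dvd_iff]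
  simp

lemma of_inj {a : k} (h : AdjoinRoot.of (X : k[X]) a = 0) : a = 0 := by
  rw [← AdjoinRoot.mk_C, AdjoinRoot.mk_eq_zero, X_dvd_iff] at h
  simpa using h

/-- Good points descend from `k[X] / X` to `k`. -/
lemma good_desc {c : Fin 10 → k} {v : Fin 3 → AdjoinRoot (X : k[X])}
    (h : Good (fun i => AdjoinRoot.of (X : k[X]) (c i)) v) : ∃ v0, Good c v0 := by
  obtain ⟨h1, ⟨w, h2⟩, z, h3, h4⟩ := h
  choose v0 hv0 using fun i => of_surj (v i)
  choose w0 hw0 using fun i => of_surj (w i)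
  choose z0 hz0 using fun i => of_surj (z i)
  have ev : v = fun i => AdjoinRoot.of (X : k[X]) (v0 i) := (funext hv0).symm
  have ew : w = fun i => AdjoinRoot.of (X : k[X]) (w0 i) := (funext hw0).symm
  have ez : z = fun i => AdjoinRoot.of (X : k[X]) (z0 i) := (funext hz0).symm
  rw [ev, ← map_tev] at h1
  rw [ev, ew, ← map_tder] at h2
  rw [ev, ez, ← map_tder] at h3
  rw [ez, ← map_tev] at h4
  refine ⟨v0, of_inj h1, ⟨w0, fun h => h2 ?_⟩, z0, of_inj h3, fun h => h4 ?_⟩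
  · rw [h, map_zero]
  · rw [h, map_zero]

/-- Good points of the forms of the orbit. -/
lemma good_orb {c c' : Fin 10 → k} {g : Matrix (Fin 3) (Fin 3) k} {l : k} (hl : l ≠ 0)
    (h : tsub c g = l • c') {v : Fin 3 → k} (hv : Good c' v) : Good c (g *ᵥ v) := by
  obtain ⟨h1, ⟨w, h2⟩, z, h3, h4⟩ := hv
  have e1 : ∀ u, tev c (g *ᵥ u) = l * tev c' u := by
    intro u
    rw [← tev_tsub, h, tev_smul_form]
  have e2 : ∀ u t, tder c (g *ᵥ u) (g *ᵥ t) = l * tder c' u t := by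
    intro u t
    rw [← tder_tsub, h, tder_smul_form]
  refine ⟨?_, ⟨g *ᵥ w, ?_⟩, g *ᵥ z, ?_, ?_⟩
  · rw [e1, h1, mul_zero]
  · rw [e2]
    exact mul_ne_zero hl h2
  · rw [e2, h3, mul_zero]
  · rw [e1]
    exact mul_ne_zero hl h4

end

end Pool.Agent.H3.AV3C.LNG

namespace Pool.Agent.H3.AV3C

open Polynomial Matrix Pool.AVR Pool.AV3 LNG

theorem lng_thm (hMED : Pool.AV3.MEDStmt) (hORB : Pool.AV3.ORBStmt) : Pool.AV3.LNGStmt := by
  intro k _ _ h2 hk c hd
  by_contra hno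
  have hO := hORB k h2 c hd
  have hM := hMED k h2 X monic_X irreducible_X
  set Or := {c' : Fin 10 → k | ∃ (g : Matrix (Fin 3) (Fin 3) k) (l : k),
    IsUnit g.det ∧ l ≠ 0 ∧ tsub c g = l • c'} with hOr
  rw [natDegree_X, mul_one] at hM
  have hfin : Finite (AdjoinRoot ((X : k[X]) ^ 2)) := by
    have h : Module.Finite k (AdjoinRoot ((X : k[X]) ^ 2)) :=
      (AdjoinRoot.powerBasis (pow_ne_zero 2 X_ne_zero)).finite
    exact Module.finite_of_finite k
  have hprod : (Or ×ˢ (Set.univ : Set (Fin 10 → k))).ncard = Or.ncard * Nat.card k ^ 10 := by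
    rw [Set.ncard_prod, Set.ncard_univ, Nat.card_fun, Nat.card_eq_fintype_card (α := Fin 10),
      Fintype.card_fin]
  have hle : (Or ×ˢ (Set.univ : Set (Fin 10 → k))).ncard ≤
      {c : Fin 10 → AdjoinRoot ((X : k[X]) ^ 2) |
        X ^ 2 ∣ dsc (Jc (hf k) fun i => AVS.lft (c i)) ∨
        gdk (md X fun i => AVS.lft (c i)) = 0}.ncard := by
    refine Set.ncard_le_ncard_of_injOn (fun p i => lf (p.1 i) (p.2 i)) ?_ ?_ (Set.toFinite _)
    · rintro ⟨c', e⟩ ⟨⟨g, l, _, hl, h⟩, _⟩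
      right
      have h1 : {v | Good (md X fun i => AVS.lft (lf (c' i) (e i))) v} = ∅ := by
        rw [Set.eq_empty_iff_forall_notMem]
        intro v hv
        have e1 : (md X fun i => AVS.lft (lf (c' i) (e i))) =
            fun i => AdjoinRoot.of (X : k[X]) (c' i) := by
          funext i
          exact lft_lf (c' i) (e i)
        rw [Set.mem_ofPred_eq, e1] at hv
        obtain ⟨v0, hv0⟩ := good_desc hv
        exact hno ⟨_, good_orb hl h hv0⟩
      unfold gdk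
      rw [h1, Set.ncard_empty]
    · rintro ⟨c', e⟩ _ ⟨c'', e'⟩ _ h
      have h1 : ∀ i, c' i = c'' i ∧ e i = e' i := fun i => lf_inj (congrFun h i)
      rw [Prod.mk.injEq]
      exact ⟨funext fun i => (h1 i).1, funext fun i => (h1 i).2⟩
  rw [hprod] at hle
  have h3 : Or.ncard * Nat.card k ^ 10 ≤ 4 * Nat.card k ^ 18 := hle.trans hM
  have hpos : 0 < Nat.card k := Nat.card_pos
  have h4 : Nat.card k ^ 18 * Nat.card k ≤ Nat.card k ^ 18 * 7776 := by
    calc Nat.card k ^ 18 * Nat.card k = Nat.card k ^ 9 * Nat.card k ^ 10 := by ring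
      _ ≤ 1944 * Or.ncard * Nat.card k ^ 10 := Nat.mul_le_mul_right _ hO
      _ = 1944 * (Or.ncard * Nat.card k ^ 10) := by ring
      _ ≤ 1944 * (4 * Nat.card k ^ 18) := Nat.mul_le_mul_left _ h3
      _ = Nat.card k ^ 18 * 7776 := by ring
  have h5 := Nat.le_of_mul_le_mul_left h4 (pow_pos hpos 18)
  omega

end Pool.Agent.H3.AV3C
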