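import Pool.Agent.H72.AV3B.TRA3
import Pool.Agent.H8.AV3.Stmts5

/-!
# Module TRB3: comparison with the completion
-/

set_option autoImplicit false

namespace Pool.Agent.H3.AV3C.TRB3

open Polynomial Matrix Pool.AVR Pool.AV3 Pool.Agent.H72.AV3B.GIR Pool.Agent.H72.AV3B.MK
  Pool.Agent.H72.AV3B.TRA3

section

variable {F : Type} [Field F] {I : Set (RatFunc F)} {ϖ : RatFunc F} {L : Type} [Field L]
  {O : ValuationSubring L} {ι : RatFunc F →+* L}

lemma hdiv (hC : AVS.IsComp F I ϖ L O ι) (x : RatFunc F) :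
    x / ϖ ∈ I ↔ ι x / ι ϖ ∈ O := by
  rw [← map_div₀, hC.mem]

/-- Good points are good points over the completion. -/
lemma gdi_asc (hC : AVS.IsComp F I ϖ L O ι) {c : Fin 10 → RatFunc F} {v : Fin 3 → RatFunc F}
    (h : GdI I ϖ c v) : GdI (O : Set L) (ι ϖ) (fun i => ι (c i)) (fun i => ι (v i)) := by
  obtain ⟨g1, ⟨i0, g2⟩, g3, ⟨w, w1, w2⟩, z, z1, z2, z3⟩ := h
  refine ⟨fun i => (hC.mem _).mpr (g1 i), ⟨i0, fun hh => g2 ((hdiv hC _).mpr hh)⟩, ?_, ?_, ?_⟩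
  · have h1 := (hdiv hC _).mp g3
    rw [map_tev] at h1
    exact h1
  · refine ⟨fun i => ι (w i), fun i => (hC.mem _).mpr (w1 i), fun hh => w2 ?_⟩
    rw [hdiv hC, map_tder]
    exact hh
  · refine ⟨fun i => ι (z i), fun i => (hC.mem _).mpr (z1 i), ?_, fun hh => z3 ?_⟩
    · have h1 := (hdiv hC _).mp z2
      rw [map_tder] at h1
      exact h1
    · rw [hdiv hC, map_tev]
      exact hh

lemma tsub_det (c : Fin 10 → RatFunc F) (g : Matrix (Fin 3) (Fin 3) (RatFunc F)) (i : Fin 10) :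
    tsub (fun i => ι (c i)) (g.map ι) i / (g.map ι).det = ι (tsub c g i / g.det) := by
  rw [map_det, map_div₀]
  congr 1
  exact (congrFun (map_tsub ι c g) i).symm

lemma kp3_asc (hC : AVS.IsComp F I ϖ L O ι) {c : Fin 10 → RatFunc F}
    {g : Matrix (Fin 3) (Fin 3) (RatFunc F)} {v : Fin 3 → RatFunc F} (h : KP3 I ϖ c g v) :
    KP3 (O : Set L) (ι ϖ) (fun i => ι (c i)) (g.map ι) (fun i => ι (v i)) := by
  obtain ⟨h1, h2, h3⟩ := h
  refine ⟨?_, ?_, ?_⟩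
  · rw [map_det, Ne, map_eq_zero]
    exact h1
  · intro i
    rw [tsub_det]
    exact (hC.mem _).mpr (h2 i)
  · have e : (fun i => tsub (fun i => ι (c i)) (g.map ι) i / (g.map ι).det) =
        fun i => ι (tsub c g i / g.det) := funext fun i => tsub_det c g i
    rw [e]
    exact gdi_asc hC h3

/-- Units of the completion are units of `F(t)` modulo the uniformizer. -/
lemma unit_approx (hC : AVS.IsComp F I ϖ L O ι) (hD : Dv (O : Set L) (ι ϖ)) {s : L}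
    (hs : AVS.UI (O : Set L) s) : ∃ x : RatFunc F, AVS.UI I x ∧ (s - ι x) / ι ϖ ∈ O := by
  obtain ⟨x, hx⟩ := hC.dense s 1
  rw [pow_one] at hx
  have hxO : ι x ∈ O := near_mem hD hs.2.1 hx
  have hnot : ¬ ι x / ι ϖ ∈ O := by
    intro h
    have h1 : s / ι ϖ ∈ O := by
      have e : s / ι ϖ = (s - ι x) / ι ϖ + ι x / ι ϖ := by ring
      rw [e]
      exact add_mem hx h
    exact (hD.unif s hs.2.1 hs.1).mpr h1 hs.2.2
  have hx0 : ι x ≠ 0 := by
    intro h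
    apply hnot
    rw [h, zero_div]
    exact zero_mem O
  refine ⟨x, ⟨?_, (hC.mem _).mp hxO, ?_⟩, hx⟩
  · intro h
    apply hx0
    rw [h, map_zero]
  · rw [← hC.mem, map_inv₀]
    by_contra h
    exact hnot ((hD.unif (ι x) hxO hx0).mp h)

lemma eq3_desc (hC : AVS.IsComp F I ϖ L O ι) (hD : Dv (O : Set L) (ι ϖ))
    {g g' : Matrix (Fin 3) (Fin 3) (RatFunc F)} {v v' : Fin 3 → RatFunc F}
    (hg : g.det ≠ 0) (hv : ∀ i, v i ∈ I)
    (h : Eq3 (O : Set L) (ι ϖ) (g.map ι) (fun i => ι (v i)) (g'.map ι) (fun i => ι (v' i))) :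
    Eq3 I ϖ g v g' v' := by
  obtain ⟨κ, r, hκ, hr, e, t, ht, hc⟩ := h
  obtain ⟨n, hn1, hn2⟩ := hC.loc.arch r hr
  have hϖ : ι ϖ ≠ 0 := hD.pi_ne
  have hϖ0 : ϖ ≠ 0 := by
    intro h
    apply hϖ
    rw [h, map_zero]
  have hϖn : (ι ϖ) ^ n ≠ 0 := zpow_ne_zero _ hϖ
  have hϖn0 : ϖ ^ n ≠ 0 := zpow_ne_zero _ hϖ0
  set u : L := r / ι ϖ ^ n with hu
  have hU : AVS.UI (O : Set L) u := ⟨div_ne_zero hr hϖn, hn1, hn2⟩
  have hgu : IsUnit g.det := isUnit_iff_ne_zero.mpr hg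
  set κ' : Matrix (Fin 3) (Fin 3) (RatFunc F) := (ϖ ^ n)⁻¹ • (g⁻¹ * g') with hκ'
  have hgg : (g⁻¹).map ι * g.map ι = 1 := by
    rw [← Matrix.map_mul, Matrix.nonsing_inv_mul g hgu]
    exact Matrix.map_one _ (map_zero ι) (map_one ι)
  have hmap : κ'.map ι = u • κ := by
    rw [hκ', Matrix.map_smul' _ _ _ (fun a b => map_mul ι a b), Matrix.map_mul, e,
      Matrix.mul_smul, ← Matrix.mul_assoc, hgg, Matrix.one_mul, smul_smul, map_inv₀, map_zpow₀]
    congr 1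
    rw [hu, div_eq_mul_inv, mul_comm]
  have hent : ∀ i j, ι (κ' i j) = u * κ i j := by
    intro i j
    have h1 := congrFun (congrFun hmap i) j
    rw [Matrix.map_apply, Matrix.smul_apply, smul_eq_mul] at h1
    exact h1
  have hdet : ι κ'.det = u ^ 3 * κ.det := by
    rw [← map_det, hmap, Matrix.det_smul, Fintype.card_fin]
  have hdetU : AVS.UI (O : Set L) (ι κ'.det) := by
    rw [hdet]
    refine ui_mul ?_ hκ.2
    rw [pow_succ, pow_two]
    exact ui_mul (ui_mul hU hU) hU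
  have hGI : AVS.GI I κ' := by
    refine ⟨fun i j => ?_, ?_, ?_, ?_⟩
    · rw [← hC.mem, hent]
      exact mul_mem (S := ValuationSubring L) hU.2.1 (hκ.1 i j)
    · intro h
      apply hdetU.1
      rw [h, map_zero]
    · rw [← hC.mem]
      exact hdetU.2.1
    · rw [← hC.mem, map_inv₀]
      exact hdetU.2.2
  obtain ⟨x, hxU, hx⟩ := unit_approx hC hD (ui_mul hU ht)
  refine ⟨κ', ϖ ^ n, hGI, hϖn0, ?_, x, hxU, ?_⟩
  · rw [hκ', Matrix.mul_smul, ← Matrix.mul_assoc, Matrix.mul_nonsing_inv g hgu, Matrix.one_mul,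
      smul_smul, mul_inv_cancel₀ hϖn0, one_smul]
  · intro i
    rw [hdiv hC, map_sub, map_mul, map_vec, hmap, Matrix.smul_mulVec, Pi.smul_apply,
      smul_eq_mul]
    have h1 := hc i
    have e1 : (u * (κ *ᵥ fun i => ι (v' i)) i - ι x * ι (v i)) / ι ϖ =
        u * (((κ *ᵥ fun i => ι (v' i)) i - t * ι (v i)) / ι ϖ) +
          ((u * t - ι x) / ι ϖ) * ι (v i) := by
      ring
    rw [e1]
    exact add_mem (S := ValuationSubring L) (mul_mem (S := ValuationSubring L) hU.2.1 h1)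
      (mul_mem (S := ValuationSubring L) hx ((hC.mem _).mpr (hv i)))

end

end Pool.Agent.H3.AV3C.TRB3

namespace Pool.Agent.H3.AV3C

open Polynomial Matrix Pool.AVR Pool.AV3

theorem trb3_thm (hDVP : Pool.AV3.DVPStmt) : Pool.AV3.TRB3Stmt := by
  intro F _ I ϖ L _ O ι hC
  have hD : Dv (O : Set L) (ι ϖ) := hDVP.2.2 L O (ι ϖ) hC.loc
  exact ⟨fun c v h => TRB3.gdi_asc hC h, fun c g v h => TRB3.kp3_asc hC h,
    fun g g' v v' hg _ hv _ h => TRB3.eq3_desc hC hD hg hv h⟩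

end Pool.Agent.H3.AV3C
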